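import Pool.Agent.H39.TO.Targets

/-!
# Row BEC of toh_modules: symmetries, class `{0, 1}` (helper79)
-/

set_option autoImplicit false

open Set

namespace Pool.Agent.H79.TOH

open Pool.Agent.H57.CP Pool.Agent.H39.TO

lemma iso_one : IsIso (1 : Equiv.Perm H3) := fun _ _ => rfl

lemma iso_mul {g h : Equiv.Perm H3} (hg : IsIso g) (hh : IsIso h) : IsIso (g * h) := by
  intro x y
  show ch (g (h x)) (g (h y)) = ch x y
  rw [hg, hh]

lemma iso_inv {g : Equiv.Perm H3} (hg : IsIso g) : IsIso g⁻¹ := by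
  intro x y
  have h1 := hg (g⁻¹ x) (g⁻¹ y)
  have h2 : ∀ z, g (g⁻¹ z) = z := fun z => g.apply_symm_apply z
  rw [h2, h2] at h1
  exact h1.symm

lemma iso_G3 {r a b : Equiv.Perm H3} (hr : IsIso r) (ha : IsIso a) (hb : IsIso b)
    {g : Equiv.Perm H3} (hg : g ∈ G3 r a b) : IsIso g := by
  refine Subgroup.closure_induction (p := fun g _ => IsIso g) ?_ iso_one ?_ ?_ hg
  · rintro g (rfl | rfl | hg)
    · exact hr
    · exact ha
    · rw [mem_singleton_iff] at hg
      subst hg
      exact hb
  · intro x y _ _ hx hy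
    exact iso_mul hx hy
  · intro x _ hx
    exact iso_inv hx

/-- the image of a set under a product -/
lemma img_mul (g h : Equiv.Perm H3) (e : Set H3) : g '' (h '' e) = (g * h : Equiv.Perm H3) '' e := by
  rw [image_image]
  rfl

lemma img_inv (g : Equiv.Perm H3) (e : Set H3) : (g⁻¹ : Equiv.Perm H3) '' (g '' e) = e := by
  rw [img_mul, inv_mul_cancel]
  exact image_id e

lemma imf_mul (g h : Equiv.Perm H3) (f : Set (Set H3)) :
    (Set.image g) '' ((Set.image h) '' f) = (Set.image (g * h : Equiv.Perm H3)) '' f := by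
  rw [image_image]
  exact image_congr fun e _ => img_mul g h e

lemma imf_inv (g : Equiv.Perm H3) (f : Set (Set H3)) :
    (Set.image (g⁻¹ : Equiv.Perm H3)) '' ((Set.image g) '' f) = f := by
  rw [image_image]
  simp only [img_inv, image_id']

theorem pf_BEC : T_BEC := by
  intro v r a b hB g hg
  refine ⟨iso_G3 hB.ir hB.ia hB.ib hg, ?_, ?_, ?_⟩
  · intro x
    constructor
    · rintro ⟨h, hh, e⟩
      refine ⟨g⁻¹ * h, mul_mem (inv_mem hg) hh, ?_⟩
      show x = g⁻¹ (h v)
      rw [← e]
      exact (g.symm_apply_apply x).symm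
    · rintro ⟨h, hh, rfl⟩
      exact ⟨g * h, mul_mem hg hh, rfl⟩
  · intro e
    constructor
    · rintro ⟨h, hh, he⟩
      refine ⟨g⁻¹ * h, mul_mem (inv_mem hg) hh, ?_⟩
      rw [← img_mul, ← he, img_inv]
    · rintro ⟨h, hh, rfl⟩
      exact ⟨g * h, mul_mem hg hh, img_mul g h _⟩
  · intro f
    constructor
    · rintro ⟨h, hh, hf⟩
      refine ⟨g⁻¹ * h, mul_mem (inv_mem hg) hh, ?_⟩
      rcases hf with hf | hf
      · left
        rw [← imf_mul, ← hf, imf_inv]
      · right
        rw [← imf_mul, ← hf, imf_inv]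
    · rintro ⟨h, hh, hf⟩
      refine ⟨g * h, mul_mem hg hh, ?_⟩
      rcases hf with rfl | rfl
      · left
        exact imf_mul g h _
      · right
        exact imf_mul g h _

end Pool.Agent.H79.TOH
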