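import Pool.Agent.H79.TOH.BEC

/-!
# Row BEF of toh_modules: two orbits, class `{0, 1}` (helper79)
-/

set_option autoImplicit false

open Set

namespace Pool.Agent.H79.TOH

open Pool.Agent.H57.CP Pool.Agent.H39.TO

lemma act_mul (g h : Equiv.Perm H3) (Φ : Fg) : act (g * h) Φ = act g (act h Φ) := by
  unfold act
  rw [img_mul, imf_mul]
  rfl

lemma act_inv (g : Equiv.Perm H3) (Φ : Fg) : act g⁻¹ (act g Φ) = Φ := by
  unfold act
  simp only [img_inv, imf_inv]
  have h : g⁻¹ (g Φ.1) = Φ.1 := g.symm_apply_apply _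
  rw [h]

/-- two elements of an orbit -/
lemma eqv_of {K : Geo} {G : Subgroup (Equiv.Perm H3)} (hG : ∀ g ∈ G, Sy K g) {Φ Ψ Θ : Fg}
    {g h : Equiv.Perm H3} (hg : g ∈ G) (hh : h ∈ G) (e1 : Φ = act g Θ) (e2 : Ψ = act h Θ) :
    Eqv K Φ Ψ := by
  refine ⟨h * g⁻¹, hG _ (mul_mem hh (inv_mem hg)), ?_⟩
  rw [act_mul, e1, act_inv, e2]

lemma vts_image (g : Equiv.Perm H3) (f : Set (Set H3)) :
    vts ((Set.image g) '' f) = g '' (vts f) := by
  ext x
  constructor
  · rintro ⟨e, ⟨e', he', rfl⟩, y, hy, rfl⟩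
    exact ⟨y, ⟨e', he', hy⟩, rfl⟩
  · rintro ⟨y, ⟨e', he', hy⟩, rfl⟩
    exact ⟨g '' e', ⟨e', he', rfl⟩, y, hy, rfl⟩

lemma vts_encard (g : Equiv.Perm H3) (f : Set (Set H3)) :
    (vts ((Set.image g) '' f)).encard = (vts f).encard := by
  rw [vts_image]
  exact g.injective.encard_image _

lemma eq_or_of_ncard {α : Type} {s : Set α} (hs : s.ncard = 2) {x y z : α} (hx : x ∈ s)
    (hy : y ∈ s) (hz : z ∈ s) (hxy : x ≠ y) : z = x ∨ z = y := by
  obtain ⟨p, q, hpq, rfl⟩ := ncard_eq_two.1 hs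
  rcases hx with rfl | hx
  · rcases hy with rfl | hy
    · exact absurd rfl hxy
    · rcases hz with rfl | hz
      · exact Or.inl rfl
      · exact Or.inr (hz.trans hy.symm)
  · rcases hz with rfl | hz
    · rcases hy with rfl | hy
      · exact Or.inr rfl
      · exact absurd (hx.trans hy.symm) hxy
    · exact Or.inl (hz.trans hx.symm)

lemma mem_fc (a b : Equiv.Perm H3) (e : Set H3) : e ∈ fc a b e :=
  ⟨1, one_mem _, (image_id e).symm⟩

lemma mem_fc' (a b : Equiv.Perm H3) (e : Set H3) : b '' e ∈ fc a b e :=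
  ⟨b, Subgroup.subset_closure (by simp), rfl⟩

lemma pair_right {α : Type} {x y z : α} (h : ({x, y} : Set α) = {x, z}) : y = z := by
  have h1 : y ∈ ({x, z} : Set α) := by
    rw [← h]
    simp
  have h2 : z ∈ ({x, y} : Set α) := by
    rw [h]
    simp
  rcases h1 with h1 | h1
  · rcases h2 with h2 | h2
    · rw [h1, h2]
    · exact h2.symm
  · exact h1

theorem pf_BEF (hBEC : T_BEC) (hBED : T_BED) (hBEE : T_BEE) (hBEB : T_BEB) : T_BEF := by
  intro v r a b hB hne
  have hG : ∀ g ∈ G3 r a b, Sy (KB v r a b) g := hBEC v r a b hB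
  have hrv : r v ≠ v := hB.rv
  have ha1 : a (r v) ≠ r v := by
    intro h
    exact hB.a1 (hB.fr a (Subgroup.subset_closure (by simp)) h)
  have hb1 : b (r v) ≠ r v := by
    intro h
    exact hB.b1 (hB.fr b (Subgroup.subset_closure (by simp)) h)
  have hFa : fc r a {v, r v} ∈ (KB v r a b).F :=
    ⟨1, one_mem _, Or.inl (by
      have : (Set.image (1 : Equiv.Perm H3)) = id := by
        ext e
        simp
      rw [this, image_id])⟩
  have hFb : fc r b {v, r v} ∈ (KB v r a b).F :=
    ⟨1, one_mem _, Or.inr (by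
      have : (Set.image (1 : Equiv.Perm H3)) = id := by
        ext e
        simp
      rw [this, image_id])⟩
  constructor
  · refine ⟨(v, {v, r v}, fc r a {v, r v}), (v, {v, r v}, fc r b {v, r v}),
      ⟨by simp, mem_fc _ _ _, hFa⟩, ⟨by simp, mem_fc _ _ _, hFb⟩, ?_⟩
    rintro ⟨g, hg, he⟩
    have e1 : g v = v := congrArg Prod.fst he
    have e2 : g '' {v, r v} = {v, r v} := congrArg (fun x : Fg => x.2.1) he
    have e3 : (Set.image g) '' fc r a {v, r v} = fc r b {v, r v} :=
      congrArg (fun x : Fg => x.2.2) he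
    have e4 : g (r v) = r v := by
      rw [image_pair, e1] at e2
      exact pair_right e2
    rcases hne with hne | hne
    · -- sizes
      apply hne
      have hsz : ∀ f ∈ (KB v r a b).F, (vts f).encard = (vts (fc r a {v, r v})).encard := by
        rintro f ⟨h, _, hf | hf⟩
        · rw [hf, vts_encard]
        · rw [hf, vts_encard, ← e3, vts_encard]
      have hFS := (hBEE v r a b hB).1
      have s1 : oE (r * a) ∈ FS (KB v r a b) := by
        rw [hFS]
        simp
      have s2 : oE (r * b) ∈ FS (KB v r a b) := by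
        rw [hFS]
        simp
      obtain ⟨f1, hf1, g1⟩ := s1
      obtain ⟨f2, hf2, g2⟩ := s2
      rw [← g1, ← g2, hsz f1 hf1, hsz f2 hf2]
    · apply hne
      have hea : a '' {v, r v} = {v, a (r v)} := by rw [image_pair, hB.av]
      have heb : b '' {v, r v} = {v, b (r v)} := by rw [image_pair, hB.bv]
      have hmem : g '' {v, a (r v)} ∈ fc r b {v, r v} := by
        rw [← e3, ← hea]
        exact ⟨_, mem_fc' _ _ _, rfl⟩
      rw [image_pair, e1] at hmem
      have hmb : ({v, b (r v)} : Set H3) ∈ fc r b {v, r v} := by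
        rw [← heb]
        exact mem_fc' _ _ _
      have hnc := (hBEB v r a b hB).vf _ hFb {v, r v} (mem_fc _ _ _) v (by simp)
      have hdif : ({v, r v} : Set H3) ≠ {v, b (r v)} := by
        intro h
        exact hb1 (pair_right h).symm
      rcases eq_or_of_ncard hnc ⟨mem_fc _ _ _, by simp⟩ ⟨hmb, by simp⟩ ⟨hmem, by simp⟩ hdif with
        h | h
      · exfalso
        have h1 : g (a (r v)) = r v := pair_right h
        rw [← e4] at h1
        have h2 : a (r v) = r v := by
          have := g.injective h1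
          rw [e4] at this
          exact this
        exact ha1 h2
      · have h1 : g (a (r v)) = b (r v) := pair_right h
        have h2 := hg.iso (r v) (a (r v))
        rw [e4, h1] at h2
        exact h2.symm
  · intro Φ Ψ Θ hΦ hΨ hΘ
    obtain ⟨g1, hg1, h1⟩ := hBED v r a b hB Φ hΦ
    obtain ⟨g2, hg2, h2⟩ := hBED v r a b hB Ψ hΨ
    obtain ⟨g3, hg3, h3⟩ := hBED v r a b hB Θ hΘ
    rcases h1 with h1 | h1 <;> rcases h2 with h2 | h2 <;> rcases h3 with h3 | h3
    · exact Or.inl (eqv_of hG hg1 hg2 h1 h2)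
    · exact Or.inl (eqv_of hG hg1 hg2 h1 h2)
    · exact Or.inr (Or.inr (eqv_of hG hg1 hg3 h1 h3))
    · exact Or.inr (Or.inl (eqv_of hG hg2 hg3 h2 h3))
    · exact Or.inr (Or.inl (eqv_of hG hg2 hg3 h2 h3))
    · exact Or.inr (Or.inr (eqv_of hG hg1 hg3 h1 h3))
    · exact Or.inl (eqv_of hG hg1 hg2 h1 h2)
    · exact Or.inl (eqv_of hG hg1 hg2 h1 h2)

end Pool.Agent.H79.TOH
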