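import Pool.Agent.H39.TO.Targets

/-!
# Row FVL of toh_modules: the values of `f` (helper79)
-/

set_option autoImplicit false

open Set

namespace Pool.Agent.H79.TOH

open Pool.Agent.H57.CP Pool.Agent.H39.TO

theorem pf_FVL : T_FVL := by
  intro p C τ _ hτ
  have hs := Real.sin_sq_add_cos_sq (Real.pi / p)
  have e1 : ((1 : ℕ) : ℝ) * Real.pi / p = Real.pi / p := by
    rw [Nat.cast_one, one_mul]
  have e2 : ((2 : ℕ) : ℝ) * Real.pi / p = 2 * (Real.pi / p) := by
    push_cast
    ring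
  have e3 : ((3 : ℕ) : ℝ) * Real.pi / p = 3 * (Real.pi / p) := by
    push_cast
    ring
  have e4 : ((4 : ℕ) : ℝ) * Real.pi / p = 2 * (2 * (Real.pi / p)) := by
    push_cast
    ring
  have e5 : 2 * Real.pi / p = 2 * (Real.pi / p) := by ring
  unfold fk c2
  rw [e1, e2, e3, e4, e5, Real.sin_two_mul (2 * (Real.pi / p)), Real.cos_two_mul (2 * (Real.pi / p)),
    Real.sin_two_mul, Real.cos_two_mul, Real.sin_three_mul, Real.cos_three_mul]
  set s := Real.sin (Real.pi / p)
  set k := Real.cos (Real.pi / p)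
  have hC : C * s ^ 2 = τ + k ^ 2 := by rw [hτ]; ring
  have hs' : s ^ 2 = 1 - k ^ 2 := by linarith
  refine ⟨?_, ?_, ?_⟩
  · linear_combination (2 * k) * hC
  · linear_combination (3 - 4 * s ^ 2) * hC - 4 * (τ + k ^ 2) * hs'
  · linear_combination (4 * k * (2 * k ^ 2 - 1)) * hC

end Pool.Agent.H79.TOH
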