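import Pool.Agent.H39.TO.Targets

/-!
# Row NET of toh_modules: class `{2}` has no odd faces (helper79)
-/

set_option autoImplicit false

open Set

namespace Pool.Agent.H79.TOH

open Pool.Agent.H57.CP Pool.Agent.H39.TO

lemma mk_sub_left (x y z : V4) : mk (x - y) z = mk x z - mk y z := by
  unfold mk
  simp only [Pi.sub_apply]
  ring

lemma mk_smul_left (c : ℝ) (x y : V4) : mk (c • x) y = c * mk x y := by
  unfold mk
  simp only [Pi.smul_apply, smul_eq_mul]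
  ring

lemma mk_comm' (x y : V4) : mk x y = mk y x := by
  unfold mk
  ring

lemma refl_apply' (a x : V4) : refl a x = x + (2 * mk a x) • a := by
  ext i
  rfl

/-- the unit normal of the bisector of two points -/
noncomputable def nrm (v v1 : H3) : V4 := (Real.sqrt (2 * (ch v v1 - 1)))⁻¹ • (v.1 - v1.1)

section

variable {v v1 : H3} (h : 1 < ch v v1)

include h in
lemma sq_pos' : 0 < Real.sqrt (2 * (ch v v1 - 1)) := Real.sqrt_pos.2 (by linarith)

include h in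
lemma sq_sq : Real.sqrt (2 * (ch v v1 - 1)) * Real.sqrt (2 * (ch v v1 - 1)) =
    2 * (ch v v1 - 1) := Real.mul_self_sqrt (by linarith)

include h in
lemma coef : 2 * ((Real.sqrt (2 * (ch v v1 - 1)))⁻¹ * (1 - ch v v1)) *
    (Real.sqrt (2 * (ch v v1 - 1)))⁻¹ = -1 := by
  have h1 := sq_pos' h
  have h2 := sq_sq h
  have h3 : 2 * (1 - ch v v1) = -(Real.sqrt (2 * (ch v v1 - 1)) * Real.sqrt (2 * (ch v v1 - 1))) := by
    rw [h2]
    ring
  field_simp
  rw [pow_two, ← h3]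

include h in
lemma nrm_unit : mk (nrm v v1) (nrm v v1) = -1 := by
  have h1 : mk (v.1 - v1.1) (v.1 - v1.1) = 2 * (1 - ch v v1) := by
    rw [mk_sub_left, mk_comm' v.1, mk_comm' v1.1, mk_sub_left, mk_sub_left, v.2.1, v1.2.1,
      mk_comm' v1.1 v.1]
    show 1 - ch v v1 - (ch v v1 - 1) = _
    ring
  unfold nrm
  rw [mk_smul_left, mk_comm', mk_smul_left, h1]
  have h2 := coef h
  linarith

include h in
lemma refl_v : refl (nrm v v1) v.1 = v1.1 := by
  have h1 : mk (nrm v v1) v.1 = (Real.sqrt (2 * (ch v v1 - 1)))⁻¹ * (1 - ch v v1) := by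
    unfold nrm
    rw [mk_smul_left, mk_sub_left, v.2.1, mk_comm' v1.1 v.1]
    rfl
  rw [refl_apply', h1]
  unfold nrm
  rw [smul_smul, coef h, neg_one_smul]
  abel

include h in
lemma refl_v1 : refl (nrm v v1) v1.1 = v.1 := by
  have h1 : mk (nrm v v1) v1.1 = -((Real.sqrt (2 * (ch v v1 - 1)))⁻¹ * (1 - ch v v1)) := by
    unfold nrm
    rw [mk_smul_left, mk_sub_left, v1.2.1]
    show _ * (ch v v1 - 1) = _
    ring
  rw [refl_apply', h1]
  unfold nrm
  rw [smul_smul]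
  have h2 : 2 * -((Real.sqrt (2 * (ch v v1 - 1)))⁻¹ * (1 - ch v v1)) *
      (Real.sqrt (2 * (ch v v1 - 1)))⁻¹ = 1 := by
    have := coef h
    linarith
  rw [h2, one_smul]
  abel

end

lemma inv_ap (g : Equiv.Perm H3) (x : H3) : g⁻¹ (g x) = x := g.symm_apply_apply x

lemma ap_inv (g : Equiv.Perm H3) (x : H3) : g (g⁻¹ x) = x := g.apply_symm_apply x

/-- the group acts on the orbit -/
lemma orb_mem {v : H3} {S T : Equiv.Perm H3} {g : Equiv.Perm H3} (hg : g ∈ Gr S T) {x : H3}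
    (hx : x ∈ Orb v S T) : g x ∈ Orb v S T := by
  obtain ⟨k, hk, rfl⟩ := hx
  exact ⟨g * k, mul_mem hg hk, rfl⟩

/-- the transfer of the group through `μ` -/
lemma transfer {v : H3} {S R σ μ : Equiv.Perm H3} (hσ : σ ∈ Gr S R)
    (hSσ : ∀ x ∈ Orb v S R, S x = σ x) (h1 : ∀ x, σ (μ (σ x)) = μ x)
    (h2 : ∀ x, μ (R x) = R (μ x)) (g : Equiv.Perm H3) (hg : g ∈ Gr S R) :
    ∃ h ∈ Gr S R, ∀ x ∈ Orb v S R, μ (g x) = h (μ x) := by
  refine Subgroup.closure_induction (p := fun g _ => ∃ h ∈ Gr S R, ∀ x ∈ Orb v S R,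
    μ (g x) = h (μ x)) ?_ ?_ ?_ ?_ hg
  · intro g hg
    rcases hg with rfl | hg
    · refine ⟨σ⁻¹, inv_mem hσ, ?_⟩
      intro x hx
      rw [hSσ x hx]
      have h3 := h1 x
      rw [← h3, inv_ap]
    · rw [mem_singleton_iff] at hg
      subst hg
      exact ⟨g, Subgroup.subset_closure (by simp), fun x _ => h2 x⟩
  · exact ⟨1, one_mem _, fun x _ => rfl⟩
  · rintro g1 g2 hg1 hg2 ⟨k1, hk1, e1⟩ ⟨k2, hk2, e2⟩
    refine ⟨k1 * k2, mul_mem hk1 hk2, ?_⟩
    intro x hx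
    have hx2 : g2 x ∈ Orb v S R := orb_mem hg2 hx
    show μ (g1 (g2 x)) = k1 (k2 (μ x))
    rw [e1 _ hx2, e2 _ hx]
  · rintro g hg ⟨k, hk, e⟩
    refine ⟨k⁻¹, inv_mem hk, ?_⟩
    intro x hx
    have hx2 : g⁻¹ x ∈ Orb v S R := orb_mem (inv_mem hg) hx
    have h3 := e _ hx2
    rw [ap_inv] at h3
    rw [h3, inv_ap]

theorem pf_NET (hD2A : T_D2A) (hPLN : T_PLN) (hINV : T_INV) (hSML : T_SML)
    (hEXT : Pool.Agent.H57.CP.T_EXT) (hMKI : Pool.Agent.H57.CP.T_MKI)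
    (_hSPN : Pool.Agent.H57.CP.T_SPN) (hLOR : Pool.Agent.H57.CP.T_LOR) : T_NET := by
  intro K p hK hTwo h0 h1 h2 hFS hodd
  obtain ⟨v, v1, f, S, R, hD⟩ := hD2A K p hK hTwo h0 h1 h2 hFS
  have hp3 : 3 ≤ p := by
    have h3 := (hSML K hK).1 (p : ℕ∞) (by rw [hFS]; rfl)
    exact_mod_cast h3
  obtain ⟨D, c, u, hDL, hDa, hDb, hDdet, hDc, -, hcc, huu, hDu, hcu, hku⟩ :=
    hPLN S v p hD.sS.iso hodd hp3 hD.Sm
  -- points
  have hvV : v ∈ K.V := by
    rw [hD.eV]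
    exact ⟨1, one_mem _, rfl⟩
  have hSG : S ∈ Gr S R := Subgroup.subset_closure (by simp)
  have hv1V : v1 ∈ K.V := by
    rw [hD.eV]
    exact ⟨S, hSG, hD.Sv.symm⟩
  have hch : 1 < ch v v1 := by
    obtain ⟨ε, hε, hd⟩ := hK.dis v hvV
    have := hd v1 hv1V hD.ne.symm
    linarith
  -- the reflection
  obtain ⟨hrL, hrr⟩ := hLOR.2.2 (nrm v v1) (nrm_unit hch)
  obtain ⟨μ, hμi, hμE⟩ := hMKI _ hrL
  have hμv : μ v = v1 := Subtype.ext ((hμE v).symm.trans (refl_v hch))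
  have hμv1 : μ v1 = v := Subtype.ext ((hμE v1).symm.trans (refl_v1 hch))
  have hμμ : ∀ x, μ (μ x) = x := by
    intro x
    apply Subtype.ext
    rw [← hμE, ← hμE]
    exact LinearMap.congr_fun hrr x.1
  -- orthogonality
  have hDv : D v.1 = v1.1 := by
    rw [hDa v ((hD.Sm p).2 dvd_rfl), hD.Sv]
  have hvc : mk v1.1 c = mk v.1 c := by
    have h3 := hDL.1 v.1 c
    rw [hDv, hDc] at h3
    exact h3
  have hnc : mk (nrm v v1) c = 0 := by
    unfold nrm
    rw [mk_smul_left, mk_sub_left, hvc, sub_self, mul_zero]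
  have hnu : mk (nrm v v1) u = 0 := by
    have e0 := hku 0
    have e1 := hku 1
    rw [pow_zero] at e0
    rw [pow_one, hD.Sv] at e1
    have e0' : mk v.1 u = 0 := e0
    unfold nrm
    rw [mk_smul_left, mk_sub_left, e0', e1, sub_self, mul_zero]
  have hinv := hINV D c u (nrm v v1) hDL hDdet hDc hDu hcc huu hcu (nrm_unit hch) hnc hnu
  -- transfer
  have hσG : S ^ (p + 1) ∈ Gr S R := pow_mem hSG _
  have hSσ : ∀ x ∈ Orb v S R, S x = (S ^ (p + 1)) x := by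
    intro x hx
    have hxV : x ∈ K.V := by
      rw [hD.eV]
      exact hx
    rw [pow_succ', Equiv.Perm.mul_apply, hD.Sp x hxV]
  have hσμ : ∀ x, (S ^ (p + 1)) (μ ((S ^ (p + 1)) x)) = μ x := by
    intro x
    apply Subtype.ext
    rw [← hDb, ← hμE, ← hDb, ← hμE]
    exact LinearMap.congr_fun hinv x.1
  have hRμ : ∀ x, μ (R x) = R (μ x) := by
    obtain ⟨B, hBL, hBE⟩ := hEXT R hD.sR.iso
    have hBn : B (nrm v v1) = nrm v v1 := by
      unfold nrm
      rw [map_smul, map_sub, hBE v, hBE v1, hD.Rv, hD.Rv1]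
    intro x
    apply Subtype.ext
    rw [← hμE, ← hBE, ← hBE, ← hμE, refl_apply', refl_apply', map_add, map_smul, hBn]
    have h3 : mk (nrm v v1) (B x.1) = mk (nrm v v1) x.1 := by
      have h4 := hBL.1 (nrm v v1) x.1
      rw [hBn] at h4
      exact h4
    rw [h3]
  have htr := fun g hg => transfer (v := v) hσG hSσ hσμ hRμ g hg
  have hV1 : ∀ x ∈ K.V, μ x ∈ K.V := by
    intro x hx
    rw [hD.eV] at hx ⊢
    obtain ⟨g, hg, rfl⟩ := hx
    obtain ⟨k, hk, e⟩ := htr g hg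
    rw [e v ⟨1, one_mem _, rfl⟩, hμv]
    exact orb_mem hk ⟨S, hSG, hD.Sv.symm⟩
  have hμpair : μ '' {v, v1} = {v, v1} := by
    rw [image_pair, hμv, hμv1, pair_comm]
  have himg : ∀ g ∈ Gr S R, ∀ k ∈ Gr S R, (∀ x ∈ Orb v S R, μ (g x) = k (μ x)) →
      ∀ e : Set H3, e ⊆ Orb v S R → μ '' (g '' e) = k '' (μ '' e) := by
    intro g _ k _ hgk e he
    rw [image_image, image_image]
    exact image_congr fun x hx => hgk x (he hx)
  have hpairV : ({v, v1} : Set H3) ⊆ Orb v S R := by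
    rw [← hD.eV]
    rintro x (rfl | rfl)
    · exact hvV
    · exact hv1V
  have hE1 : ∀ e ∈ K.E, μ '' e ∈ K.E := by
    intro e he
    rw [hD.eE] at he ⊢
    obtain ⟨g, hg, rfl⟩ := he
    obtain ⟨k, hk, e⟩ := htr g hg
    refine ⟨k, hk, ?_⟩
    rw [himg g hg k hk e _ hpairV, hμpair]
  -- the base face
  have hstep : ∀ x ∈ Orb v S R, μ (S x) = S⁻¹ (μ x) := by
    intro x hx
    have h3 := hσμ x
    rw [← hSσ x hx] at h3
    have hy : μ (S x) ∈ K.V := by
      apply hV1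
      rw [hD.eV]
      exact orb_mem hSG hx
    rw [← hSσ (μ (S x)) (by rw [← hD.eV]; exact hy)] at h3
    rw [← h3, inv_ap]
  have hstep' : ∀ x ∈ Orb v S R, μ (S⁻¹ x) = S (μ x) := by
    intro x hx
    have hx' : S⁻¹ x ∈ Orb v S R := orb_mem (inv_mem hSG) hx
    have h3 := hstep _ hx'
    rw [ap_inv] at h3
    rw [h3, ap_inv]
  have hSz : ∀ j : ℤ, ∀ x ∈ Orb v S R, μ ((S ^ j : Equiv.Perm H3) x) =
      ((S ^ (-j) : Equiv.Perm H3)) (μ x) := by
    intro j
    induction j using Int.induction_on with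
    | zero =>
      intro x _
      simp
    | succ j ih =>
      intro x hx
      have e1 : (S ^ ((j : ℤ) + 1) : Equiv.Perm H3) x = (S ^ (j : ℤ) : Equiv.Perm H3) (S x) := by
        rw [zpow_add, zpow_one, Equiv.Perm.mul_apply]
      have e2 : (S ^ (-((j : ℤ) + 1)) : Equiv.Perm H3) (μ x) =
          (S ^ (-(j : ℤ)) : Equiv.Perm H3) (S⁻¹ (μ x)) := by
        rw [neg_add, zpow_add, zpow_neg_one, Equiv.Perm.mul_apply]
      rw [e1, e2, ih _ (orb_mem hSG hx), hstep x hx]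
    | pred j ih =>
      intro x hx
      have e1 : (S ^ (-(j : ℤ) - 1) : Equiv.Perm H3) x =
          (S ^ (-(j : ℤ)) : Equiv.Perm H3) (S⁻¹ x) := by
        rw [zpow_sub, zpow_one, Equiv.Perm.mul_apply]
      have e2 : (S ^ (-(-(j : ℤ) - 1)) : Equiv.Perm H3) (μ x) =
          (S ^ (-(-(j : ℤ))) : Equiv.Perm H3) (S (μ x)) := by
        rw [show -(-(j : ℤ) - 1) = -(-(j : ℤ)) + 1 by ring, zpow_add, zpow_one,
          Equiv.Perm.mul_apply]
      rw [e1, e2, ih _ (orb_mem (inv_mem hSG) hx), hstep' x hx]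
  have hedge : ∀ j : ℤ, μ '' ((S ^ j : Equiv.Perm H3) '' {v, v1}) =
      (S ^ (-j) : Equiv.Perm H3) '' {v, v1} := by
    intro j
    have e1 : μ '' ((S ^ j : Equiv.Perm H3) '' {v, v1}) =
        (S ^ (-j) : Equiv.Perm H3) '' (μ '' {v, v1}) := by
      rw [image_image, image_image]
      exact image_congr fun x hx => hSz j x (hpairV hx)
    rw [e1, hμpair]
  have hf1 : (Set.image μ) '' f = f := by
    conv_lhs => rw [hD.ef]
    conv_rhs => rw [hD.ef]
    ext e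
    constructor
    · rintro ⟨e', ⟨j, rfl⟩, rfl⟩
      exact ⟨-j, hedge j⟩
    · rintro ⟨j, rfl⟩
      refine ⟨(S ^ (-j) : Equiv.Perm H3) '' {v, v1}, ⟨-j, rfl⟩, ?_⟩
      show μ '' _ = _
      rw [hedge (-j), neg_neg]
  have hfV : ∀ e ∈ f, e ⊆ Orb v S R := by
    intro e he
    rw [hD.ef] at he
    obtain ⟨j, rfl⟩ := he
    rintro x ⟨y, hy, rfl⟩
    exact orb_mem (zpow_mem hSG j) (hpairV hy)
  have hF1 : ∀ h ∈ K.F, (Set.image μ) '' h ∈ K.F := by
    intro h hh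
    rw [hD.eF] at hh ⊢
    obtain ⟨g, hg, rfl⟩ := hh
    obtain ⟨k, hk, e⟩ := htr g hg
    refine ⟨k, hk, ?_⟩
    have e1 : (Set.image μ) '' ((Set.image g) '' f) =
        (Set.image k) '' ((Set.image μ) '' f) := by
      rw [image_image, image_image]
      exact image_congr fun a ha => himg g hg k hk e a (hfV a ha)
    rw [e1, hf1]
  -- the symmetry
  have hμμe : ∀ e : Set H3, μ '' (μ '' e) = e := by
    intro e
    rw [image_image]
    simp only [hμμ, image_id']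
  have hμμf : ∀ h : Set (Set H3), (Set.image μ) '' ((Set.image μ) '' h) = h := by
    intro h
    rw [image_image]
    simp only [hμμe, image_id']
  have hSy : Sy K μ := by
    refine ⟨hμi, fun x => ⟨fun hx => ?_, hV1 x⟩, fun e => ⟨fun he => ?_, hE1 e⟩,
      fun h => ⟨fun hh => ?_, hF1 h⟩⟩
    · have := hV1 _ hx
      rwa [hμμ] at this
    · have := hE1 _ he
      rwa [hμμe] at this
    · have := hF1 _ hh
      rwa [hμμf] at this
  have hfl := hD.fl
  have hfl2 : Fl K (v1, {v, v1}, f) := ⟨by simp, hfl.2.1, hfl.2.2⟩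
  refine h0 (v, {v, v1}, f) (v1, {v, v1}, f) ⟨hfl, hfl2, hD.ne, rfl, rfl⟩ ⟨μ, hSy, ?_⟩
  show (μ v, μ '' {v, v1}, (Set.image μ) '' f) = (v1, {v, v1}, f)
  rw [hμv, hμpair, hf1]

end Pool.Agent.H79.TOH
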